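import Pool.Agent.H4.MR

set_option autoImplicit false

namespace Pool.Agent.Results.MP_51fc0b_lc.Hard

open Pool.Agent.H11.PT Pool.Agent.H21.ER Pool.Agent.H4.MR

theorem result (r : ℕ) (hr : 2 ≤ r) : ∃ f : Qf → List (List ℕ), PolyTime bits bits f ∧ ∀ φ,
    Sq (f φ) ∧ (ETR φ ↔ ∃ x : ℕ → ℝ, (mat (f φ) x).rank ≤ r) := by
  obtain ⟨k, rfl⟩ : ∃ k, r = k + 1 := ⟨r - 1, by omega⟩
  obtain ⟨f, a, b⟩ := main k
  refine ⟨f, a.polyTime, fun φ => ⟨(b φ).1, (b φ).2.1, fun ⟨x, h⟩ => by_contra fun n => ?_⟩⟩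
  have := (b φ).2.2 n x
  omega

end Pool.Agent.Results.MP_51fc0b_lc.Hard
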